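import Mathlib

/-!
# Circle product endomorphisms of cones of nonnegative finitely supported functions

`A = ℝ[G]` is the group algebra of an additive commutative group `G`, `ℓ : G →+ ℤ` a height.
`N ℓ` is the cone of nonnegative elements supported in `{ℓ ≥ 1}`.
We classify support preserving maps `ψ : N ℓ → N ℓ` which respect `u ∘ v = u + v + u v`.
-/

namespace Q292.BZ

open AddMonoidAlgebra

variable {G : Type*} [AddCommGroup G]

/-- nonnegative elements supported in height at least one -/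
def N (ℓ : G →+ ℤ) : Set (AddMonoidAlgebra ℝ G) :=
  {u | ∀ x, 0 ≤ u.coeff x ∧ (u.coeff x ≠ 0 → 1 ≤ ℓ x)}

theorem coeff_mul_sub (f g : AddMonoidAlgebra ℝ G) (x : G) :
    (f * g).coeff x = f.coeff.sum fun y a => a * g.coeff (x - y) := by
  rw [coeff_mul_apply_left]
  simp only [neg_add_eq_sub]

theorem N_add {ℓ : G →+ ℤ} {u v : AddMonoidAlgebra ℝ G} (hu : u ∈ N ℓ) (hv : v ∈ N ℓ) :
    u + v ∈ N ℓ := by
  intro x
  obtain ⟨h1, h2⟩ := hu x
  obtain ⟨h3, h4⟩ := hv x
  refine ⟨by simpa using add_nonneg h1 h3, fun h => ?_⟩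
  by_contra hx
  have e1 : u.coeff x = 0 := by
    by_contra h5
    exact hx (h2 h5)
  have e2 : v.coeff x = 0 := by
    by_contra h5
    exact hx (h4 h5)
  apply h
  simp [e1, e2]

theorem coeff_mul_nonneg {f g : AddMonoidAlgebra ℝ G} (hf : ∀ x, 0 ≤ f.coeff x)
    (hg : ∀ x, 0 ≤ g.coeff x) (x : G) : 0 ≤ (f * g).coeff x := by
  rw [coeff_mul_sub]
  exact Finset.sum_nonneg fun y _ => mul_nonneg (hf y) (hg _)

theorem N_mul {ℓ : G →+ ℤ} {u v : AddMonoidAlgebra ℝ G} (hu : u ∈ N ℓ) (hv : v ∈ N ℓ) :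
    u * v ∈ N ℓ := by
  intro x
  refine ⟨coeff_mul_nonneg (fun x => (hu x).1) (fun x => (hv x).1) x, fun h => ?_⟩
  rw [coeff_mul_sub] at h
  obtain ⟨y, hy, hne⟩ := Finset.exists_ne_zero_of_sum_ne_zero h
  have h1 := (hu y).2 (by
    intro h0
    apply hne
    simp [h0])
  have h2 := (hv (x - y)).2 (by
    intro h0
    apply hne
    simp [h0])
  rw [map_sub] at h2
  omega

theorem N_single {ℓ : G →+ ℤ} {x : G} (hx : 1 ≤ ℓ x) {a : ℝ} (ha : 0 ≤ a) :
    (single x a : AddMonoidAlgebra ℝ G) ∈ N ℓ := by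
  classical
  intro y
  rw [coeff_single, Finsupp.single_apply]
  split_ifs with h
  · subst h
    exact ⟨ha, fun _ => hx⟩
  · exact ⟨le_refl _, fun h => absurd rfl h⟩

/-- The product only sees low coefficients. -/
theorem coeff_mul_congr {ℓ : G →+ ℤ} {p q q' : AddMonoidAlgebra ℝ G} (hp : p ∈ N ℓ) {x : G}
    (h : ∀ z, ℓ z < ℓ x → q.coeff z = q'.coeff z) : (p * q).coeff x = (p * q').coeff x := by
  rw [coeff_mul_sub, coeff_mul_sub]
  refine Finset.sum_congr rfl fun y hy => ?_
  have hy' := (hp y).2 (Finsupp.mem_support_iff.1 hy)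
  have := h (x - y) (by rw [map_sub]; omega)
  simp only [this]

/-- Hypotheses on `ψ`. -/
structure Good (ℓ : G →+ ℤ) (ψ : AddMonoidAlgebra ℝ G → AddMonoidAlgebra ℝ G) : Prop where
  maps : ∀ u ∈ N ℓ, ψ u ∈ N ℓ
  circ : ∀ u ∈ N ℓ, ∀ v ∈ N ℓ, ψ (u + v + u * v) = ψ u + ψ v + ψ u * ψ v
  supp : ∀ u ∈ N ℓ, ∀ x, (ψ u).coeff x = 0 ↔ u.coeff x = 0

theorem N_low {ℓ : G →+ ℤ} {u : AddMonoidAlgebra ℝ G} (hu : u ∈ N ℓ) {x : G} (hx : ℓ x < 1) :
    u.coeff x = 0 := by
  by_contra h
  have := (hu x).2 h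
  omega

theorem aux_mem {ℓ : G →+ ℤ} {u v : AddMonoidAlgebra ℝ G} (hu : u ∈ N ℓ) (hv : v ∈ N ℓ) {x : G}
    (hx : 1 ≤ ℓ x) :
    (u - single x (u.coeff x)) + single x (u.coeff x) * (v + u * u + u * v) ∈ N ℓ := by
  classical
  refine N_add ?_ (N_mul (N_single hx (hu x).1) (N_add (N_add hv (N_mul hu hu)) (N_mul hu hv)))
  intro y
  by_cases hy : x = y
  · subst hy
    simp
  · simp only [coeff_sub, coeff_single, Finsupp.sub_apply, Finsupp.single_apply, if_neg hy, sub_zero]
    exact hu y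

theorem aux_coeff {ℓ : G →+ ℤ} {u v : AddMonoidAlgebra ℝ G} (hu : u ∈ N ℓ) (hv : v ∈ N ℓ) {x : G}
    (hx : 1 ≤ ℓ x) {z : G} (hz : ℓ z < ℓ x) :
    ((u - single x (u.coeff x)) + single x (u.coeff x) * (v + u * u + u * v)).coeff z
      = u.coeff z := by
  classical
  have hne : x ≠ z := by
    rintro rfl
    exact lt_irrefl _ hz
  have h1 : (single x (u.coeff x) * (v + u * u + u * v)).coeff z = 0 := by
    have h2 := (N_add (N_add hv (N_mul hu hu)) (N_mul hu hv))
    rw [coeff_mul_sub]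
    refine Finset.sum_eq_zero fun y hy => ?_
    have hy' : y = x := by
      by_contra hne'
      have := Finsupp.mem_support_iff.1 hy
      rw [coeff_single, Finsupp.single_apply, if_neg (fun h => hne' h.symm)] at this
      exact this rfl
    subst hy'
    have h3 := N_low (x := z - y) h2 (by rw [map_sub]; omega)
    simp only [h3, mul_zero]
  rw [coeff_add, Finsupp.add_apply, h1, add_zero, coeff_sub, Finsupp.sub_apply, coeff_single,
    Finsupp.single_apply, if_neg hne, sub_zero]

theorem aux_coeff_self {ℓ : G →+ ℤ} {u v : AddMonoidAlgebra ℝ G} (hu : u ∈ N ℓ) (hv : v ∈ N ℓ)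
    {x : G} :
    ((u - single x (u.coeff x)) + single x (u.coeff x) * (v + u * u + u * v)).coeff x
      = 0 := by
  classical
  have h1 : (single x (u.coeff x) * (v + u * u + u * v)).coeff x = 0 := by
    have h2 := (N_add (N_add hv (N_mul hu hu)) (N_mul hu hv))
    rw [coeff_mul_sub]
    refine Finset.sum_eq_zero fun y hy => ?_
    have hy' : y = x := by
      by_contra hne'
      have := Finsupp.mem_support_iff.1 hy
      rw [coeff_single, Finsupp.single_apply, if_neg (fun h => hne' h.symm)] at this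
      exact this rfl
    subst hy'
    have h3 := N_low (x := y - y) h2 (by rw [map_sub]; omega)
    simp only [h3, mul_zero]
  rw [coeff_add, Finsupp.add_apply, h1, add_zero, coeff_sub, Finsupp.sub_apply, coeff_single,
    Finsupp.single_apply, if_pos rfl, sub_self]

/-- Locality: the coefficient of `ψ u` at `x` only depends on the coefficient of `u` at `x`. -/
theorem locality {ℓ : G →+ ℤ} {ψ : AddMonoidAlgebra ℝ G → AddMonoidAlgebra ℝ G}
    (H : Good ℓ ψ) : ∀ n : ℕ, ∀ x : G, ℓ x ≤ n → ∀ u ∈ N ℓ, ∀ v ∈ N ℓ,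
      u.coeff x = v.coeff x → (ψ u).coeff x = (ψ v).coeff x := by
  intro n
  induction n with
  | zero =>
    intro x hx u hu v hv _
    rw [N_low (H.maps u hu) (by simp at hx; omega), N_low (H.maps v hv) (by simp at hx; omega)]
  | succ n ih =>
    intro x hx u hu v hv huv
    by_cases hx1 : ℓ x < 1
    · rw [N_low (H.maps u hu) hx1, N_low (H.maps v hv) hx1]
    push Not at hx1
    set u1 := (u - single x (u.coeff x)) + single x (u.coeff x) * (v + u * u + u * v) with hu1
    set v1 := (v - single x (v.coeff x)) + single x (v.coeff x) * (u + v * v + v * u) with hv1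
    have hu1m : u1 ∈ N ℓ := aux_mem hu hv hx1
    have hv1m : v1 ∈ N ℓ := aux_mem hv hu hx1
    have key : u + v1 + u * v1 = v + u1 + v * u1 := by
      rw [hu1, hv1, huv]
      ring
    have k2 : ψ u + ψ v1 + ψ u * ψ v1 = ψ v + ψ u1 + ψ v * ψ u1 := by
      rw [← H.circ u hu v1 hv1m, ← H.circ v hv u1 hu1m, key]
    have k3 := congrArg (fun f => f.coeff x) k2
    simp only [coeff_add, Finsupp.add_apply] at k3
    have z1 : (ψ v1).coeff x = 0 := (H.supp v1 hv1m x).2 (aux_coeff_self hv hu)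
    have z2 : (ψ u1).coeff x = 0 := (H.supp u1 hu1m x).2 (aux_coeff_self hu hv)
    have c1 : (ψ u * ψ v1).coeff x = (ψ u * ψ v).coeff x := by
      refine coeff_mul_congr (H.maps u hu) fun z hz => ?_
      exact ih z (by push_cast at hx; omega) v1 hv1m v hv (aux_coeff hv hu hx1 hz)
    have c2 : (ψ v * ψ u1).coeff x = (ψ v * ψ u).coeff x := by
      refine coeff_mul_congr (H.maps v hv) fun z hz => ?_
      exact ih z (by push_cast at hx; omega) u1 hu1m u hu (aux_coeff hu hv hx1 hz)
    rw [z1, z2, c1, c2, mul_comm (ψ u) (ψ v)] at k3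
    linarith

theorem locality' {ℓ : G →+ ℤ} {ψ : AddMonoidAlgebra ℝ G → AddMonoidAlgebra ℝ G}
    (H : Good ℓ ψ) (x : G) {u v : AddMonoidAlgebra ℝ G} (hu : u ∈ N ℓ) (hv : v ∈ N ℓ)
    (h : u.coeff x = v.coeff x) : (ψ u).coeff x = (ψ v).coeff x :=
  locality H (ℓ x).toNat x (Int.self_le_toNat _) u hu v hv h

/-- A nonnegative additive function on the half line is linear. -/
theorem linear_of_additive (F : ℝ → ℝ) (h0 : ∀ s, 0 ≤ s → 0 ≤ F s)
    (hadd : ∀ s t, 0 ≤ s → 0 ≤ t → F (s + t) = F s + F t) : ∀ s, 0 ≤ s → F s = s * F 1 := by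
  have hz : F 0 = 0 := by
    have := hadd 0 0 le_rfl le_rfl
    simp at this
    exact this
  have hmono : ∀ s t, 0 ≤ s → s ≤ t → F s ≤ F t := by
    intro s t hs hst
    have := hadd s (t - s) hs (by linarith)
    rw [show s + (t - s) = t by ring] at this
    have := h0 (t - s) (by linarith)
    linarith
  have hnat : ∀ s, 0 ≤ s → ∀ n : ℕ, F (n * s) = n * F s := by
    intro s hs n
    induction n with
    | zero => simp [hz]
    | succ n ih =>
      push_cast
      rw [add_mul, one_mul, hadd _ _ (by positivity) hs, ih]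
      ring
  intro s hs
  have hF1 : 0 ≤ F 1 := h0 1 (by norm_num)
  have hb : ∀ n : ℕ, |(n : ℝ) * (F s - s * F 1)| ≤ F 1 := by
    intro n
    have hns : 0 ≤ (n : ℝ) * s := by positivity
    have h1 := Nat.floor_le hns
    have h2 := Nat.lt_floor_add_one ((n : ℝ) * s)
    have h3 := hmono _ _ (by positivity) h1
    have h4 := hmono _ _ hns h2.le
    have e1 := hnat 1 (by norm_num) (⌊(n : ℝ) * s⌋₊)
    have e2 := hnat 1 (by norm_num) (⌊(n : ℝ) * s⌋₊ + 1)
    rw [mul_one] at e1 e2
    push_cast at e2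
    rw [e1] at h3
    rw [e2] at h4
    rw [hnat s hs n] at h3 h4
    have h5 : (⌊(n : ℝ) * s⌋₊ : ℝ) * F 1 ≤ (n : ℝ) * s * F 1 :=
      mul_le_mul_of_nonneg_right h1 hF1
    have h6 : (n : ℝ) * s * F 1 ≤ ((⌊(n : ℝ) * s⌋₊ : ℝ) + 1) * F 1 :=
      mul_le_mul_of_nonneg_right h2.le hF1
    rw [abs_le]
    constructor <;> nlinarith
  by_contra hne
  have hpos : 0 < |F s - s * F 1| := abs_pos.2 (sub_ne_zero.2 hne)
  obtain ⟨n, hn⟩ := exists_nat_gt (F 1 / |F s - s * F 1|)
  have := hb n
  rw [abs_mul, Nat.abs_cast] at this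
  rw [div_lt_iff₀ hpos] at hn
  linarith

theorem main {ℓ : G →+ ℤ} {ψ : AddMonoidAlgebra ℝ G → AddMonoidAlgebra ℝ G}
    (H : Good ℓ ψ) :
    (∀ x, 1 ≤ ℓ x → 0 < (ψ (single x 1)).coeff x) ∧
    (∀ y z, 1 ≤ ℓ y → 1 ≤ ℓ z → (ψ (single (y + z) 1)).coeff (y + z)
      = (ψ (single y 1)).coeff y * (ψ (single z 1)).coeff z) ∧
    (∀ u ∈ N ℓ, ∀ x, 1 ≤ ℓ x → (ψ u).coeff x = (ψ (single x 1)).coeff x * u.coeff x) := by
  classical
  have hsing : ∀ x, 1 ≤ ℓ x → ∀ s, 0 ≤ s → ψ (single x s) = single x ((ψ (single x s)).coeff x) := by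
    intro x hx s hs
    ext y
    rw [coeff_single, Finsupp.single_apply]
    split_ifs with h
    · rw [h]
    · rw [H.supp _ (N_single hx hs) y, coeff_single, Finsupp.single_apply, if_neg h]
  have hprod : ∀ y z, 1 ≤ ℓ y → 1 ≤ ℓ z → ∀ s t, 0 ≤ s → 0 ≤ t →
      ψ (single y s + single z t + single (y + z) (s * t)) =
        single y ((ψ (single y s)).coeff y) + single z ((ψ (single z t)).coeff z)
          + single (y + z) ((ψ (single y s)).coeff y * (ψ (single z t)).coeff z) := by
    intro y z hy hz s t hs ht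
    have := H.circ _ (N_single hy hs) _ (N_single hz ht)
    rw [single_mul_single] at this
    rw [this, hsing y hy s hs, hsing z hz t ht, single_mul_single]
    simp
  have hG : ∀ y z, 1 ≤ ℓ y → 1 ≤ ℓ z → ∀ s t, 0 ≤ s → 0 ≤ t →
      (ψ (single (y + z) (s * t))).coeff (y + z)
        = (ψ (single y s)).coeff y * (ψ (single z t)).coeff z := by
    intro y z hy hz s t hs ht
    have hyz : 1 ≤ ℓ (y + z) := by rw [map_add]; omega
    have hy0 : y ≠ y + z := by
      intro h
      have : z = 0 := by simpa using h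
      rw [this, map_zero] at hz
      omega
    have hz0 : z ≠ y + z := by
      intro h
      have : y = 0 := by simpa using h
      rw [this, map_zero] at hy
      omega
    have e1 := congrArg (fun f => f.coeff (y + z)) (hprod y z hy hz s t hs ht)
    simp only [coeff_add, Finsupp.add_apply, coeff_single, Finsupp.single_apply, if_neg hy0,
      if_neg hz0, zero_add, if_true] at e1
    rw [← e1]
    refine locality' H (y + z) (N_single hyz (mul_nonneg hs ht)) (N_add (N_add (N_single hy hs)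
      (N_single hz ht)) (N_single hyz (mul_nonneg hs ht))) ?_
    simp only [coeff_add, Finsupp.add_apply, coeff_single, Finsupp.single_apply, if_neg hy0,
      if_neg hz0, zero_add, if_true]
  have hAdd : ∀ y, 1 ≤ ℓ y → ∀ s t, 0 ≤ s → 0 ≤ t →
      (ψ (single y (s + t))).coeff y = (ψ (single y s)).coeff y + (ψ (single y t)).coeff y := by
    intro y hy s t hs ht
    have hyz : 1 ≤ ℓ (y + y) := by rw [map_add]; omega
    have hy0 : y + y ≠ y := by
      intro h
      have : y = 0 := by simpa using h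
      rw [this, map_zero] at hy
      omega
    have e1 := congrArg (fun f => f.coeff y) (hprod y y hy hy s t hs ht)
    simp only [coeff_add, Finsupp.add_apply, coeff_single, Finsupp.single_apply, if_neg hy0,
      add_zero, if_true] at e1
    rw [← e1]
    refine locality' H y (N_single hy (add_nonneg hs ht)) (N_add (N_add (N_single hy hs)
      (N_single hy ht)) (N_single hyz (mul_nonneg hs ht))) ?_
    simp only [coeff_add, Finsupp.add_apply, coeff_single, Finsupp.single_apply, if_neg hy0,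
      add_zero, if_true]
  have hnn : ∀ x, 1 ≤ ℓ x → ∀ s, 0 ≤ s → 0 ≤ (ψ (single x s)).coeff x := fun x hx s hs =>
    (H.maps _ (N_single hx hs) x).1
  refine ⟨fun x hx => ?_, fun y z hy hz => ?_, fun u hu x hx => ?_⟩
  · refine lt_of_le_of_ne (hnn x hx 1 (by norm_num)) fun h => ?_
    have := (H.supp _ (N_single hx zero_le_one) x).1 h.symm
    rw [coeff_single, Finsupp.single_apply, if_pos rfl] at this
    exact one_ne_zero this
  · have := hG y z hy hz 1 1 zero_le_one zero_le_one
    rwa [mul_one] at this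
  · have h1 : (ψ u).coeff x = (ψ (single x (u.coeff x))).coeff x :=
      locality' H x hu (N_single hx (hu x).1) (by
        rw [coeff_single, Finsupp.single_apply, if_pos rfl])
    rw [h1, linear_of_additive (fun s => (ψ (single x s)).coeff x) (hnn x hx) (hAdd x hx) _ (hu x).1]
    ring

end Q292.BZ
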