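import Mathlib

/-!
# Finitely supported probability measures on `ℤ^d`
-/

namespace Q292.BZ

/-- A finitely supported probability measure on `ℤ^d`, given by its mass function. -/
structure FinProb (d : ℕ) where
  /-- the mass function -/
  mass : (Fin d → ℤ) → ℝ
  nonneg : ∀ x, 0 ≤ mass x
  finite : (Function.support mass).Finite
  total : ∑ᶠ x, mass x = 1

namespace FinProb

variable {d : ℕ}

@[ext] theorem ext' {μ ν : FinProb d} (h : ∀ x, μ.mass x = ν.mass x) : μ = ν := by
  cases μ; cases ν; congr; exact funext h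

/-- The support `{x : μ(x) > 0}`. -/
def supp (μ : FinProb d) : Set (Fin d → ℤ) := {x | 0 < μ.mass x}

/-- The convolution `(μ * ν)(x) = ∑_y μ(y) ν(x - y)`. -/
noncomputable def conv (μ ν : FinProb d) : FinProb d where
  mass x := ∑ᶠ y, μ.mass y * ν.mass (x - y)
  nonneg x := finsum_nonneg fun y => mul_nonneg (μ.nonneg y) (ν.nonneg _)
  finite := by
    refine ((μ.finite.prod ν.finite).image fun p => p.1 + p.2).subset fun x hx => ?_
    obtain ⟨y, hy⟩ : ∃ y, μ.mass y * ν.mass (x - y) ≠ 0 := by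
      by_contra! h
      exact hx (by simp only [h, finsum_zero])
    exact ⟨(y, x - y), ⟨left_ne_zero_of_mul hy, right_ne_zero_of_mul hy⟩, by simp⟩
  total := by
    classical
    have hs : ∀ z, ∑ᶠ x, ν.mass (x - z) = 1 := fun z => by
      rw [← ν.total]
      exact finsum_comp_equiv (Equiv.subRight z) (f := ν.mass)
    have hfin : (Function.support fun p : (Fin d → ℤ) × (Fin d → ℤ) =>
        μ.mass p.2 * ν.mass (p.1 - p.2)).Finite := by
      refine ((μ.finite.prod ν.finite).image fun p => (p.1 + p.2, p.1)).subset fun p hp => ?_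
      exact ⟨(p.2, p.1 - p.2), ⟨left_ne_zero_of_mul hp, right_ne_zero_of_mul hp⟩, by simp⟩
    have hfin' : (Function.support fun p : (Fin d → ℤ) × (Fin d → ℤ) =>
        μ.mass p.1 * ν.mass (p.2 - p.1)).Finite := by
      refine ((μ.finite.prod ν.finite).image fun p => (p.1, p.1 + p.2)).subset fun p hp => ?_
      exact ⟨(p.1, p.2 - p.1), ⟨left_ne_zero_of_mul hp, right_ne_zero_of_mul hp⟩, by simp⟩
    rw [← finsum_curry (fun p : (Fin d → ℤ) × (Fin d → ℤ) => μ.mass p.2 * ν.mass (p.1 - p.2)) hfin,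
      ← finsum_comp_equiv (Equiv.prodComm (Fin d → ℤ) (Fin d → ℤ))]
    simp only [Equiv.prodComm_apply, Prod.fst_swap, Prod.snd_swap]
    rw [finsum_curry _ hfin']
    rw [← μ.total]
    refine finsum_congr fun a => ?_
    change ∑ᶠ b, μ.mass a * ν.mass (b - a) = μ.mass a
    rw [← mul_finsum, hs, mul_one]

/-- The Boltzmann reweighting `Φ_β[μ](x) = μ(x) exp(-β·x) / ∑_y μ(y) exp(-β·y)`. -/
noncomputable def boltzmann (β : Fin d → ℝ) (μ : FinProb d) : FinProb d where
  mass x := μ.mass x * Real.exp (-∑ i, β i * x i) / ∑ᶠ y, μ.mass y * Real.exp (-∑ i, β i * y i)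
  nonneg x := div_nonneg (mul_nonneg (μ.nonneg x) (Real.exp_nonneg _))
    (finsum_nonneg fun y => mul_nonneg (μ.nonneg y) (Real.exp_nonneg _))
  finite := μ.finite.subset fun x hx => left_ne_zero_of_mul (left_ne_zero_of_mul (a := _) hx)
  total := by
    have h1 : ∃ x, 0 < μ.mass x := by
      by_contra h
      push Not at h
      have : ∑ᶠ x, μ.mass x = 0 := by
        rw [finsum_congr (g := fun _ => 0) (fun x => le_antisymm (h x) (μ.nonneg x)), finsum_zero]
      rw [μ.total] at this
      exact one_ne_zero this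
    obtain ⟨x, hx⟩ := h1
    have hpos : 0 < ∑ᶠ y, μ.mass y * Real.exp (-∑ i, β i * y i) :=
      finsum_pos (fun y => mul_nonneg (μ.nonneg y) (Real.exp_nonneg _))
        ⟨x, mul_pos hx (Real.exp_pos _)⟩
        (μ.finite.subset fun x hx => left_ne_zero_of_mul hx)
    simp only [div_eq_mul_inv]
    rw [← finsum_mul, mul_inv_cancel₀ hpos.ne']

end FinProb

end Q292.BZ
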