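import Mathlib
import Pool.Agent.Q292.BZ.Core
import Pool.Agent.Q292.BZ.Defs

/-!
# Support preserving endomorphisms are Boltzmann reweightings
-/

namespace Q292.BZ

open AddMonoidAlgebra FinProb

variable {d : ℕ}

/-- the measure as an element of the group algebra -/
noncomputable def toA (μ : FinProb d) : AddMonoidAlgebra ℝ (Fin d → ℤ) :=
  ofCoeff (Finsupp.ofSupportFinite μ.mass μ.finite)

@[simp] theorem toA_coeff (μ : FinProb d) (x : Fin d → ℤ) : (toA μ).coeff x = μ.mass x := rfl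

theorem toA_inj {μ ν : FinProb d} (h : toA μ = toA ν) : μ = ν :=
  FinProb.ext' fun x => by rw [← toA_coeff, h, toA_coeff]

theorem coeff_mul_finsum (f g : AddMonoidAlgebra ℝ (Fin d → ℤ)) (x : Fin d → ℤ) :
    (f * g).coeff x = ∑ᶠ y, f.coeff y * g.coeff (x - y) := by
  rw [coeff_mul_sub, Finsupp.sum]
  symm
  apply finsum_eq_sum_of_support_subset
  intro y hy
  exact Finset.mem_coe.2 (Finsupp.mem_support_iff.2 (left_ne_zero_of_mul hy))

theorem toA_conv (μ ν : FinProb d) : toA (conv μ ν) = toA μ * toA ν := by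
  ext x
  rw [coeff_mul_finsum]
  rfl

/-- total mass, an algebra homomorphism -/
noncomputable def tot : AddMonoidAlgebra ℝ (Fin d → ℤ) →ₐ[ℝ] ℝ :=
  AddMonoidAlgebra.lift ℝ ℝ (Fin d → ℤ) 1

theorem tot_apply (f : AddMonoidAlgebra ℝ (Fin d → ℤ)) : tot f = f.coeff.sum fun _ a => a := by
  simp [tot, AddMonoidAlgebra.lift_apply]

theorem tot_finsum (f : AddMonoidAlgebra ℝ (Fin d → ℤ)) : tot f = ∑ᶠ x, f.coeff x := by
  rw [tot_apply, Finsupp.sum]
  symm
  apply finsum_eq_sum_of_support_subset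
  intro y hy
  exact Finset.mem_coe.2 (Finsupp.mem_support_iff.2 hy)

theorem tot_toA (μ : FinProb d) : tot (toA μ) = 1 := by
  rw [tot_finsum]
  exact μ.total

theorem tot_single (x : Fin d → ℤ) (a : ℝ) : tot (single x a) = a := by
  rw [tot_apply, coeff_single, Finsupp.sum_single_index rfl]

theorem tot_pos {f : AddMonoidAlgebra ℝ (Fin d → ℤ)} (hf : ∀ x, 0 ≤ f.coeff x) {x : Fin d → ℤ}
    (hx : 0 < f.coeff x) : 0 < tot f := by
  rw [tot_apply]
  exact Finset.sum_pos' (fun y _ => hf y) ⟨x, Finsupp.mem_support_iff.2 hx.ne', hx⟩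

/-- normalise a positive element -/
noncomputable def normP (f : AddMonoidAlgebra ℝ (Fin d → ℤ)) (hf : ∀ x, 0 ≤ f.coeff x)
    (ht : 0 < tot f) : FinProb d where
  mass x := (tot f)⁻¹ * f.coeff x
  nonneg x := mul_nonneg (inv_nonneg.2 ht.le) (hf x)
  finite := f.coeff.hasFiniteSupport.subset fun x hx => right_ne_zero_of_mul hx
  total := by rw [← mul_finsum, ← tot_finsum, inv_mul_cancel₀ ht.ne']

/-- the Dirac mass at zero -/
noncomputable def dirac0 : FinProb d :=
  normP (single 0 1) (fun x => by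
    classical
    rw [coeff_single, Finsupp.single_apply]; split_ifs <;> norm_num)
    (by rw [tot_single]; norm_num)

open Classical in
/-- normalisation, with a default value -/
noncomputable def nrm (f : AddMonoidAlgebra ℝ (Fin d → ℤ)) : FinProb d :=
  if h : (∀ x, 0 ≤ f.coeff x) ∧ 0 < tot f then normP f h.1 h.2 else dirac0

theorem nrm_mass {f : AddMonoidAlgebra ℝ (Fin d → ℤ)} (hf : ∀ x, 0 ≤ f.coeff x)
    (ht : 0 < tot f) (x : Fin d → ℤ) : (nrm f).mass x = (tot f)⁻¹ * f.coeff x := by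
  rw [nrm, dif_pos ⟨hf, ht⟩]
  rfl

theorem toA_nrm {f : AddMonoidAlgebra ℝ (Fin d → ℤ)} (hf : ∀ x, 0 ≤ f.coeff x)
    (ht : 0 < tot f) : toA (nrm f) = (tot f)⁻¹ • f := by
  ext x
  rw [toA_coeff, nrm_mass hf ht, coeff_smul, Finsupp.smul_apply, smul_eq_mul]

theorem nrm_mul {f g : AddMonoidAlgebra ℝ (Fin d → ℤ)} (hf : ∀ x, 0 ≤ f.coeff x)
    (htf : 0 < tot f) (hg : ∀ x, 0 ≤ g.coeff x) (htg : 0 < tot g) :
    nrm (f * g) = conv (nrm f) (nrm g) := by
  apply toA_inj
  rw [toA_conv, toA_nrm hf htf, toA_nrm hg htg,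
    toA_nrm (coeff_mul_nonneg hf hg) (by rw [map_mul]; exact mul_pos htf htg), map_mul, mul_inv,
    smul_mul_smul_comm]

theorem nrm_toA (μ : FinProb d) : nrm (toA μ) = μ := by
  apply toA_inj
  rw [toA_nrm (fun x => μ.nonneg x) (by rw [tot_toA]; norm_num), tot_toA, inv_one, one_smul]

theorem nrm_smul {f : AddMonoidAlgebra ℝ (Fin d → ℤ)} (hf : ∀ x, 0 ≤ f.coeff x)
    (ht : 0 < tot f) {c : ℝ} (hc : 0 < c) : nrm (c • f) = nrm f := by
  apply toA_inj
  rw [toA_nrm hf ht, toA_nrm (f := c • f) (fun x => by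
    rw [coeff_smul, Finsupp.smul_apply, smul_eq_mul]
    exact mul_nonneg hc.le (hf x)) (by rw [map_smul, smul_eq_mul]; exact mul_pos hc ht), map_smul,
    smul_smul, smul_eq_mul, mul_inv, mul_comm c⁻¹, mul_assoc, inv_mul_cancel₀ hc.ne', mul_one]

/-- A support preserving endomorphism. -/
structure Endo (Φ : FinProb d → FinProb d) : Prop where
  conv : ∀ μ ν, Φ (conv μ ν) = FinProb.conv (Φ μ) (Φ ν)
  supp : ∀ μ, (Φ μ).supp = μ.supp

theorem mass_eq_zero_iff (μ : FinProb d) (x : Fin d → ℤ) : μ.mass x = 0 ↔ x ∉ μ.supp := by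
  constructor
  · intro h hx
    exact hx.ne' h
  · intro h
    exact le_antisymm (not_lt.1 h) (μ.nonneg x)

theorem Endo.zero_iff {Φ : FinProb d → FinProb d} (H : Endo Φ) (μ : FinProb d) (x : Fin d → ℤ) :
    (Φ μ).mass x = 0 ↔ μ.mass x = 0 := by
  rw [mass_eq_zero_iff, mass_eq_zero_iff, H.supp]

theorem Endo.pos_iff {Φ : FinProb d → FinProb d} (H : Endo Φ) (μ : FinProb d) (x : Fin d → ℤ) :
    0 < (Φ μ).mass x ↔ 0 < μ.mass x := by
  have := H.supp μ
  exact Set.ext_iff.1 this x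

/-- The map on unnormalised elements `1 + u`. -/
noncomputable def psi (Φ : FinProb d → FinProb d) (u : AddMonoidAlgebra ℝ (Fin d → ℤ)) :
    AddMonoidAlgebra ℝ (Fin d → ℤ) :=
  ((Φ (nrm (1 + u))).mass 0)⁻¹ • toA (Φ (nrm (1 + u))) - 1

theorem one_coeff (x : Fin d → ℤ) [Decidable (0 = x)] :
    (1 : AddMonoidAlgebra ℝ (Fin d → ℤ)).coeff x = if 0 = x then 1 else 0 := by
  rw [AddMonoidAlgebra.one_def, coeff_single, Finsupp.single_apply]

section

variable {ℓ : (Fin d → ℤ) →+ ℤ} {Φ : FinProb d → FinProb d}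

theorem one_add_nonneg {u : AddMonoidAlgebra ℝ (Fin d → ℤ)} (hu : u ∈ N ℓ) (x : Fin d → ℤ) :
    0 ≤ (1 + u).coeff x := by
  classical
  rw [coeff_add, Finsupp.add_apply, one_coeff]
  have := (hu x).1
  split_ifs <;> linarith

theorem one_add_zero {u : AddMonoidAlgebra ℝ (Fin d → ℤ)} (hu : u ∈ N ℓ) :
    (1 + u).coeff 0 = 1 := by
  classical
  rw [coeff_add, Finsupp.add_apply, one_coeff, if_pos rfl, N_low hu (by simp), add_zero]

theorem one_add_ne {u : AddMonoidAlgebra ℝ (Fin d → ℤ)} {x : Fin d → ℤ} (hx : x ≠ 0) :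
    (1 + u).coeff x = u.coeff x := by
  classical
  rw [coeff_add, Finsupp.add_apply, one_coeff, if_neg (fun h => hx h.symm), zero_add]

theorem one_add_tot {u : AddMonoidAlgebra ℝ (Fin d → ℤ)} (hu : u ∈ N ℓ) : 0 < tot (1 + u) :=
  tot_pos (one_add_nonneg hu) (x := 0) (by rw [one_add_zero hu]; norm_num)

theorem nrm_one_add_zero {u : AddMonoidAlgebra ℝ (Fin d → ℤ)} (hu : u ∈ N ℓ) :
    0 < (nrm (1 + u)).mass 0 := by
  rw [nrm_mass (one_add_nonneg hu) (one_add_tot hu), one_add_zero hu, mul_one]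
  exact inv_pos.2 (one_add_tot hu)

theorem phi_zero_pos (H : Endo Φ) {u : AddMonoidAlgebra ℝ (Fin d → ℤ)} (hu : u ∈ N ℓ) :
    0 < (Φ (nrm (1 + u))).mass 0 := (H.pos_iff _ _).2 (nrm_one_add_zero hu)

theorem psi_zero (H : Endo Φ) {u : AddMonoidAlgebra ℝ (Fin d → ℤ)} (hu : u ∈ N ℓ) :
    (psi Φ u).coeff 0 = 0 := by
  classical
  rw [psi, coeff_sub, Finsupp.sub_apply, coeff_smul, Finsupp.smul_apply, toA_coeff, smul_eq_mul,
    inv_mul_cancel₀ (phi_zero_pos H hu).ne', one_coeff, if_pos rfl, sub_self]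

theorem psi_ne (u : AddMonoidAlgebra ℝ (Fin d → ℤ)) {x : Fin d → ℤ} (hx : x ≠ 0) :
    (psi Φ u).coeff x = ((Φ (nrm (1 + u))).mass 0)⁻¹ * (Φ (nrm (1 + u))).mass x := by
  classical
  rw [psi, coeff_sub, Finsupp.sub_apply, coeff_smul, Finsupp.smul_apply, toA_coeff, smul_eq_mul,
    one_coeff, if_neg (fun h => hx h.symm), sub_zero]

theorem psi_supp (H : Endo Φ) {u : AddMonoidAlgebra ℝ (Fin d → ℤ)} (hu : u ∈ N ℓ)
    (x : Fin d → ℤ) : (psi Φ u).coeff x = 0 ↔ u.coeff x = 0 := by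
  by_cases hx : x = 0
  · subst hx
    simp only [psi_zero H hu, true_iff]
    exact N_low hu (by simp)
  · rw [psi_ne u hx, mul_eq_zero, or_iff_right (inv_pos.2 (phi_zero_pos H hu)).ne', H.zero_iff,
      nrm_mass (one_add_nonneg hu) (one_add_tot hu), mul_eq_zero,
      or_iff_right (inv_pos.2 (one_add_tot hu)).ne', one_add_ne hx]

theorem toA_eq (H : Endo Φ) {u : AddMonoidAlgebra ℝ (Fin d → ℤ)} (hu : u ∈ N ℓ) :
    toA (Φ (nrm (1 + u))) = (Φ (nrm (1 + u))).mass 0 • (1 + psi Φ u) := by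
  rw [psi, add_sub_cancel, smul_smul, mul_inv_cancel₀ (phi_zero_pos H hu).ne', one_smul]

theorem good_psi (H : Endo Φ) : Good ℓ (psi Φ) := by
  classical
  have hmaps : ∀ u ∈ N ℓ, psi Φ u ∈ N ℓ := by
    intro u hu x
    refine ⟨?_, fun h => (hu x).2 fun h0 => h ((psi_supp H hu x).2 h0)⟩
    by_cases hx : x = 0
    · subst hx
      rw [psi_zero H hu]
    · rw [psi_ne u hx]
      exact mul_nonneg (inv_nonneg.2 (phi_zero_pos H hu).le) ((Φ _).nonneg x)
  refine ⟨hmaps, ?_, fun u hu x => psi_supp H hu x⟩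
  intro u hu v hv
  have huv : u + v + u * v ∈ N ℓ := N_add (N_add hu hv) (N_mul hu hv)
  have e0 : (1 : AddMonoidAlgebra ℝ (Fin d → ℤ)) + (u + v + u * v) = (1 + u) * (1 + v) := by ring
  have e1 : Φ (nrm (1 + (u + v + u * v))) = FinProb.conv (Φ (nrm (1 + u))) (Φ (nrm (1 + v))) := by
    rw [e0, nrm_mul (one_add_nonneg hu) (one_add_tot hu) (one_add_nonneg hv) (one_add_tot hv),
      H.conv]
  set a := (Φ (nrm (1 + u))).mass 0 with ha
  set b := (Φ (nrm (1 + v))).mass 0 with hb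
  have ha0 : 0 < a := phi_zero_pos H hu
  have hb0 : 0 < b := phi_zero_pos H hv
  have e2 : toA (Φ (nrm (1 + (u + v + u * v)))) =
      (a * b) • (1 + (psi Φ u + psi Φ v + psi Φ u * psi Φ v)) := by
    rw [e1, toA_conv, toA_eq H hu, toA_eq H hv, smul_mul_smul_comm, ← ha, ← hb]
    congr 1
    ring
  have e3 : (Φ (nrm (1 + (u + v + u * v)))).mass 0 = a * b := by
    rw [← toA_coeff, e2, coeff_smul, Finsupp.smul_apply, smul_eq_mul,
      one_add_zero (ℓ := ℓ) (N_add (N_add (hmaps u hu) (hmaps v hv))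
        (N_mul (hmaps u hu) (hmaps v hv))), mul_one]
  rw [psi, e2, e3, smul_smul, inv_mul_cancel₀ (mul_pos ha0 hb0).ne', one_smul, add_sub_cancel_left]

/-- the two point ratios -/
noncomputable def gam (Φ : FinProb d → FinProb d) (v : Fin d → ℤ) : ℝ :=
  (psi Φ (single v 1)).coeff v

theorem core (H : Endo Φ) :
    (∀ x, 1 ≤ ℓ x → 0 < gam Φ x) ∧
    (∀ y z, 1 ≤ ℓ y → 1 ≤ ℓ z → gam Φ (y + z) = gam Φ y * gam Φ z) ∧
    (∀ u ∈ N ℓ, ∀ x, 1 ≤ ℓ x → (psi Φ u).coeff x = gam Φ x * u.coeff x) :=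
  main (good_psi H)

end


/-- the character -/
noncomputable def chi (Φ : FinProb d → FinProb d) (v : Fin d → ℤ) : ℝ :=
  ∏ i, gam Φ (Pi.single i 1) ^ v i

theorem chi_add {Φ : FinProb d → FinProb d} (hp : ∀ i, 0 < gam Φ (Pi.single i 1))
    (v w : Fin d → ℤ) : chi Φ (v + w) = chi Φ v * chi Φ w := by
  rw [chi, chi, chi, ← Finset.prod_mul_distrib]
  exact Finset.prod_congr rfl fun i _ => by rw [Pi.add_apply, zpow_add₀ (hp i).ne']

theorem chi_pos {Φ : FinProb d → FinProb d} (hp : ∀ i, 0 < gam Φ (Pi.single i 1))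
    (v : Fin d → ℤ) : 0 < chi Φ v :=
  Finset.prod_pos fun i _ => zpow_pos (hp i) _

theorem chi_single {Φ : FinProb d → FinProb d} (i : Fin d) :
    chi Φ (Pi.single i 1) = gam Φ (Pi.single i 1) := by
  classical
  rw [chi, Finset.prod_eq_single i]
  · simp
  · intro j _ hj
    simp [Pi.single_eq_of_ne hj]
  · intro h
    exact absurd (Finset.mem_univ i) h

theorem chi_zero {Φ : FinProb d → FinProb d} : chi Φ (0 : Fin d → ℤ) = 1 := by
  simp [chi]

theorem gam_eq_chi {ℓ : (Fin d → ℤ) →+ ℤ} {Φ : FinProb d → FinProb d} (H : Endo Φ)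
    (hℓ : ∀ i, 1 ≤ ℓ (Pi.single i 1)) : ∀ v, 1 ≤ ℓ v → gam Φ v = chi Φ v := by
  classical
  obtain ⟨hpos, hmul, -⟩ := core (ℓ := ℓ) H
  have hp : ∀ i, 0 < gam Φ (Pi.single i 1) := fun i => hpos _ (hℓ i)
  -- the subgroup of good vectors
  let S : AddSubgroup (Fin d → ℤ) :=
    { carrier := {v | ∀ w, 1 ≤ ℓ w → 1 ≤ ℓ (w + v) → gam Φ (w + v) = gam Φ w * chi Φ v}
      zero_mem' := by
        intro w _ _
        rw [add_zero, chi_zero, mul_one]
      neg_mem' := by
        intro v hv w hw hwv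
        have h1 := hv (w + -v) hwv (by simpa using hw)
        rw [neg_add_cancel_right] at h1
        have h2 : chi Φ v * chi Φ (-v) = 1 := by
          rw [← chi_add hp, add_neg_cancel, chi_zero]
        rw [h1, mul_assoc, h2, mul_one]
      add_mem' := by
        intro v v' hv hv' w hw hwv
        -- shift by a large multiple of w
        obtain ⟨n, hn⟩ : ∃ n : ℕ, 1 ≤ n ∧ 1 ≤ ℓ (w + n • w + v) := by
          refine ⟨(ℓ v).natAbs + 1, by omega, ?_⟩
          rw [map_add, map_add, map_nsmul, nsmul_eq_mul]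
          push_cast
          have h3 : -|ℓ v| ≤ ℓ v := neg_abs_le _
          nlinarith [abs_nonneg (ℓ v)]
        have hnw : 1 ≤ ℓ (n • w) := by
          rw [map_nsmul, nsmul_eq_mul]
          have : (1 : ℤ) ≤ n := by exact_mod_cast hn.1
          nlinarith
        have h1 := hmul (w + (v + v')) (n • w) hwv hnw
        have h2 : w + (v + v') + n • w = (w + n • w + v) + v' := by abel
        have hge : 1 ≤ ℓ (w + n • w + v + v') := by
          rw [← h2, map_add]
          omega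
        have h3 := hv' (w + n • w + v) hn.2 hge
        have hwn : 1 ≤ ℓ (w + n • w) := by
          rw [map_add]
          omega
        have h4 := hv (w + n • w) hwn hn.2
        have h5 := hmul w (n • w) hw hnw
        rw [h2, h3, h4, h5] at h1
        have h6 := (hpos _ hnw).ne'
        rw [chi_add hp]
        have h7 : gam Φ (w + (v + v')) * gam Φ (n • w) =
            (gam Φ w * (chi Φ v * chi Φ v')) * gam Φ (n • w) := by
          rw [← h1]; ring
        exact mul_right_cancel₀ h6 h7 }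
  have hS : ∀ i, (Pi.single i 1 : Fin d → ℤ) ∈ S := by
    intro i w hw _
    rw [hmul w _ hw (hℓ i), chi_single]
  have htop : ∀ v, v ∈ S := by
    intro v
    have : v = ∑ i, v i • (Pi.single i 1 : Fin d → ℤ) := by
      ext j
      rw [Finset.sum_apply, Finset.sum_eq_single j]
      · simp
      · intro i _ hi
        simp [Pi.single_eq_of_ne' hi]
      · intro h
        exact absurd (Finset.mem_univ j) h
    rw [this]
    exact S.sum_mem fun i _ => S.zsmul_mem (hS i) _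
  intro v hv
  have h1 := htop v v hv (by rw [map_add]; omega)
  rw [hmul v v hv hv] at h1
  exact mul_left_cancel₀ (hpos v hv).ne' h1

/-- the height `∑ x_i N^i` -/
def ht (d : ℕ) (n : ℤ) : (Fin d → ℤ) →+ ℤ where
  toFun x := ∑ i, x i * n ^ (i : ℕ)
  map_zero' := by simp
  map_add' x y := by simp [add_mul, Finset.sum_add_distrib]

theorem ht_apply (n : ℤ) (x : Fin d → ℤ) : ht d n x = ∑ i, x i * n ^ (i : ℕ) := rfl

theorem ht_single (n : ℤ) (i : Fin d) : ht d n (Pi.single i 1) = n ^ (i : ℕ) := by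
  classical
  rw [ht_apply, Finset.sum_eq_single i]
  · simp
  · intro j _ hj
    simp [Pi.single_eq_of_ne hj]
  · intro h
    exact absurd (Finset.mem_univ i) h

open Polynomial in
theorem exists_height (s : Finset (Fin d → ℤ)) (hs : (0 : Fin d → ℤ) ∉ s) :
    ∃ ℓ : (Fin d → ℤ) →+ ℤ, (∀ i, 1 ≤ ℓ (Pi.single i 1)) ∧ ∀ x ∈ s, ℓ x ≠ 0 := by
  classical
  let P : (Fin d → ℤ) → ℤ[X] := fun x => ∑ i, C (x i) * X ^ (i : ℕ)
  have hP : ∀ x, x ≠ 0 → P x ≠ 0 := by
    intro x hx h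
    apply hx
    ext i
    have := congrArg (fun p => p.coeff (i : ℕ)) h
    simp only [P, Polynomial.finsetSum_coeff, Polynomial.coeff_C_mul, Polynomial.coeff_X_pow,
      Polynomial.coeff_zero] at this
    rw [Finset.sum_eq_single i] at this
    · simpa using this
    · intro j _ hj
      rw [if_neg (fun h => hj (Fin.ext h.symm)), mul_zero]
    · intro h
      exact absurd (Finset.mem_univ i) h
  have hQ : (∏ x ∈ s, P x) ≠ 0 := Finset.prod_ne_zero_iff.2 fun x hx => hP x (by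
    rintro rfl
    exact hs hx)
  obtain ⟨n, hn1, hn⟩ : ∃ n : ℕ, 1 ≤ n ∧ (∏ x ∈ s, P x).eval (n : ℤ) ≠ 0 := by
    by_contra! h
    apply hQ
    apply Polynomial.eq_zero_of_infinite_isRoot
    refine Set.Infinite.mono (s := (fun n : ℕ => (n : ℤ)) '' Set.Ici 1) ?_ ?_
    · rintro _ ⟨n, hn, rfl⟩
      exact h n hn
    · exact (Set.Ici_infinite 1).image (fun a _ b _ h => by exact_mod_cast h)
  refine ⟨ht d n, fun i => ?_, fun x hx => ?_⟩
  · rw [ht_single]
    exact one_le_pow₀ (by exact_mod_cast hn1)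
  · rw [Polynomial.eval_prod, Finset.prod_ne_zero_iff] at hn
    have := hn x hx
    simp only [P, Polynomial.eval_finsetSum, Polynomial.eval_mul, Polynomial.eval_C,
      Polynomial.eval_pow, Polynomial.eval_X] at this
    rw [ht_apply]
    exact this

theorem tot_nrm_single (x : Fin d → ℤ) : toA (nrm (single x (1 : ℝ))) = single x 1 := by
  classical
  rw [toA_nrm (fun y => by
    rw [coeff_single, Finsupp.single_apply]; split_ifs <;> norm_num)
    (by rw [tot_single]; norm_num), tot_single, inv_one, one_smul]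

theorem phi_dirac {Φ : FinProb d → FinProb d} (H : Endo Φ) (x : Fin d → ℤ) :
    Φ (nrm (single x (1 : ℝ))) = nrm (single x (1 : ℝ)) := by
  classical
  apply toA_inj
  have h1 : toA (Φ (nrm (single x (1 : ℝ)))) =
      single x ((Φ (nrm (single x (1 : ℝ)))).mass x) := by
    ext y
    rw [toA_coeff, coeff_single, Finsupp.single_apply]
    split_ifs with h
    · rw [h]
    · rw [H.zero_iff, ← toA_coeff, tot_nrm_single, coeff_single, Finsupp.single_apply, if_neg h]
  have h2 := tot_toA (Φ (nrm (single x (1 : ℝ))))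
  rw [h1, tot_single] at h2
  rw [h1, h2, tot_nrm_single]

theorem exists_gt (μ : FinProb d) : ∃ x, 0 < μ.mass x := by
  by_contra! h
  have : ∑ᶠ x, μ.mass x = 0 := by
    rw [finsum_congr (g := fun _ => 0) (fun x => le_antisymm (h x) (μ.nonneg x)), finsum_zero]
  rw [μ.total] at this
  exact one_ne_zero this

/-- Up to a constant, `Φ μ` is `χ μ`. -/
theorem phi_eq {Φ : FinProb d → FinProb d} (H : Endo Φ) (μ : FinProb d) :
    ∃ C : ℝ, ∀ x, (Φ μ).mass x = C * (chi Φ x * μ.mass x) := by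
  classical
  -- choose the height
  let s : Finset (Fin d → ℤ) :=
    ((μ.finite.toFinset ×ˢ μ.finite.toFinset).image fun p => p.1 - p.2).erase 0
  obtain ⟨ℓ, hℓ1, hℓ2⟩ := exists_height s (by simp [s])
  obtain ⟨z, hz⟩ := exists_gt μ
  have hne : μ.finite.toFinset.Nonempty := ⟨z, by simpa using hz.ne'⟩
  obtain ⟨x0, hx0, hmin⟩ := Finset.exists_min_image μ.finite.toFinset (fun x => ℓ x) hne
  have hx0' : 0 < μ.mass x0 := lt_of_le_of_ne (μ.nonneg x0) (by
    have := (Set.Finite.mem_toFinset _).1 hx0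
    exact (Function.mem_support.1 this).symm)
  have hge : ∀ x, μ.mass x ≠ 0 → x ≠ x0 → 1 ≤ ℓ (x - x0) := by
    intro x hx hne
    have hxs : x ∈ μ.finite.toFinset := (Set.Finite.mem_toFinset _).2 hx
    have h1 := hmin x hxs
    have h2 : ℓ (x - x0) ≠ 0 := by
      apply hℓ2
      rw [Finset.mem_erase]
      exact ⟨sub_ne_zero.2 hne, Finset.mem_image.2 ⟨(x, x0), Finset.mem_product.2 ⟨hxs, hx0⟩, rfl⟩⟩
    rw [map_sub] at h2 ⊢
    have h3 : ℓ x0 ≤ ℓ x := h1
    omega
  -- the shifted element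
  set f : AddMonoidAlgebra ℝ (Fin d → ℤ) :=
    (μ.mass x0)⁻¹ • (single (-x0) 1 * toA μ) with hf
  have hfc : ∀ y, f.coeff y = (μ.mass x0)⁻¹ * μ.mass (y + x0) := by
    intro y
    rw [hf, coeff_smul, Finsupp.smul_apply, smul_eq_mul, coeff_single_mul_apply]
    simp [toA_coeff, add_comm]
  set u := f - 1 with hu
  have hf1 : 1 + u = f := by rw [hu]; ring
  have huN : u ∈ N ℓ := by
    intro y
    by_cases hy : y = 0
    · subst hy
      have : u.coeff 0 = 0 := by
        rw [hu, coeff_sub, Finsupp.sub_apply, hfc, zero_add, inv_mul_cancel₀ hx0'.ne', one_coeff,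
          if_pos rfl, sub_self]
      rw [this]
      exact ⟨le_refl _, fun h => absurd rfl h⟩
    · have : u.coeff y = (μ.mass x0)⁻¹ * μ.mass (y + x0) := by
        rw [hu, coeff_sub, Finsupp.sub_apply, hfc, one_coeff, if_neg (fun h => hy h.symm), sub_zero]
      rw [this]
      refine ⟨mul_nonneg (inv_nonneg.2 hx0'.le) (μ.nonneg _), fun h => ?_⟩
      have := hge (y + x0) (right_ne_zero_of_mul h) (by simpa using hy)
      simpa using this
  have hdn : ∀ y, 0 ≤ (single (-x0) (1 : ℝ) : AddMonoidAlgebra ℝ (Fin d → ℤ)).coeff y := fun y => by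
    rw [coeff_single, Finsupp.single_apply]; split_ifs <;> norm_num
  have hdt : 0 < tot (single (-x0) (1 : ℝ) : AddMonoidAlgebra ℝ (Fin d → ℤ)) := by
    rw [tot_single]; norm_num
  have hμt : 0 < tot (toA μ) := by rw [tot_toA]; norm_num
  have hnf : nrm (1 + u) = FinProb.conv (nrm (single (-x0) 1)) μ := by
    rw [hf1, hf, nrm_smul (coeff_mul_nonneg hdn (fun x => μ.nonneg x))
      (by rw [map_mul]; exact mul_pos hdt hμt) (inv_pos.2 hx0'),
      nrm_mul hdn hdt (fun x => μ.nonneg x) hμt, nrm_toA]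
  have hΦ : ∀ y, (Φ (nrm (1 + u))).mass y = (Φ μ).mass (y + x0) := by
    intro y
    rw [hnf, H.conv, phi_dirac H, ← toA_coeff, toA_conv, tot_nrm_single, coeff_single_mul_apply]
    simp [toA_coeff, add_comm]
  have hpos0 : 0 < (Φ μ).mass x0 := (H.pos_iff μ x0).2 hx0'
  obtain ⟨hpos, hmul, hpsi⟩ := core (ℓ := ℓ) H
  have hp : ∀ i, 0 < gam Φ (Pi.single i 1) := fun i => hpos _ (hℓ1 i)
  refine ⟨(Φ μ).mass x0 / (chi Φ x0 * μ.mass x0), fun x => ?_⟩
  have hc0 := chi_pos hp x0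
  by_cases hx : x = x0
  · subst hx
    field_simp
  by_cases hμx : μ.mass x = 0
  · rw [(H.zero_iff μ x).2 hμx, hμx]
    ring
  have hℓx := hge x hμx hx
  have h1 := hpsi u huN (x - x0) hℓx
  rw [psi_ne u (sub_ne_zero.2 hx), hΦ, hΦ, zero_add, sub_add_cancel, gam_eq_chi H hℓ1 _ hℓx,
    ← one_add_ne (u := u) (sub_ne_zero.2 hx), hf1, hfc, sub_add_cancel] at h1
  have h2 : chi Φ x = chi Φ (x - x0) * chi Φ x0 := by
    rw [← chi_add hp, sub_add_cancel]
  rw [h2]
  have h3 : (Φ μ).mass x = (Φ μ).mass x0 * (((Φ μ).mass x0)⁻¹ * (Φ μ).mass x) := by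
    rw [← mul_assoc, mul_inv_cancel₀ hpos0.ne', one_mul]
  rw [h3, h1]
  field_simp

theorem boltzmann_mass (β : Fin d → ℝ) (μ : FinProb d) (x : Fin d → ℤ) :
    (boltzmann β μ).mass x =
      μ.mass x * Real.exp (-∑ i, β i * x i) / ∑ᶠ y, μ.mass y * Real.exp (-∑ i, β i * y i) := rfl

theorem eq_of_proportional {μ ν : FinProb d} (C : ℝ) (h : ∀ x, μ.mass x = C * ν.mass x) :
    μ = ν := by
  have h1 : C = 1 := by
    rw [← μ.total, finsum_congr h, ← mul_finsum, ν.total, mul_one]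
  exact FinProb.ext' fun x => by rw [h x, h1, one_mul]

theorem boltzmann_conv (β : Fin d → ℝ) (μ ν : FinProb d) :
    boltzmann β (FinProb.conv μ ν) = FinProb.conv (boltzmann β μ) (boltzmann β ν) := by
  set Zμ := ∑ᶠ y, μ.mass y * Real.exp (-∑ i, β i * y i) with hZμ
  set Zν := ∑ᶠ y, ν.mass y * Real.exp (-∑ i, β i * y i) with hZν
  have hpos : ∀ κ : FinProb d, 0 < ∑ᶠ y, κ.mass y * Real.exp (-∑ i, β i * y i) := by
    intro κ
    obtain ⟨x, hx⟩ := exists_gt κ
    exact finsum_pos (fun y => mul_nonneg (κ.nonneg y) (Real.exp_nonneg _))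
        ⟨x, mul_pos hx (Real.exp_pos _)⟩
        (κ.finite.subset fun x hx => left_ne_zero_of_mul hx)
  have hμ : 0 < Zμ := hpos μ
  have hν : 0 < Zν := hpos ν
  refine eq_of_proportional
    (Zμ * Zν / ∑ᶠ y, (FinProb.conv μ ν).mass y * Real.exp (-∑ i, β i * y i)) fun x => ?_
  have h1 : (FinProb.conv (boltzmann β μ) (boltzmann β ν)).mass x =
      (FinProb.conv μ ν).mass x * Real.exp (-∑ i, β i * x i) / (Zμ * Zν) := by
    change (∑ᶠ y, (boltzmann β μ).mass y * (boltzmann β ν).mass (x - y)) =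
      (∑ᶠ y, μ.mass y * ν.mass (x - y)) * Real.exp (-∑ i, β i * x i) / (Zμ * Zν)
    rw [mul_div_assoc, finsum_mul]
    refine finsum_congr fun y => ?_
    rw [boltzmann_mass, boltzmann_mass, ← hZμ, ← hZν]
    have h2 : Real.exp (-∑ i, β i * x i) = Real.exp (-∑ i, β i * y i) *
        Real.exp (-∑ i, β i * ((x - y) i : ℤ)) := by
      rw [← Real.exp_add, ← neg_add, ← Finset.sum_add_distrib]
      congr 2
      refine Finset.sum_congr rfl fun i _ => ?_
      rw [Pi.sub_apply]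
      push_cast
      ring
    rw [h2]
    field_simp
  rw [h1, boltzmann_mass]
  have h3 := (hpos (FinProb.conv μ ν)).ne'
  field_simp

theorem boltzmann_supp (β : Fin d → ℝ) (μ : FinProb d) : (boltzmann β μ).supp = μ.supp := by
  ext x
  obtain ⟨z, hz⟩ := exists_gt μ
  have hpos : 0 < ∑ᶠ y, μ.mass y * Real.exp (-∑ i, β i * y i) :=
    finsum_pos (fun y => mul_nonneg (μ.nonneg y) (Real.exp_nonneg _))
        ⟨z, mul_pos hz (Real.exp_pos _)⟩
        (μ.finite.subset fun x hx => left_ne_zero_of_mul hx)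
  change 0 < (boltzmann β μ).mass x ↔ 0 < μ.mass x
  rw [boltzmann_mass, div_pos_iff_of_pos_right hpos, mul_pos_iff_of_pos_right (Real.exp_pos _)]

theorem eq_boltzmann {Φ : FinProb d → FinProb d} (H : Endo Φ) : ∃ β, Φ = boltzmann β := by
  obtain ⟨ℓ, hℓ1, -⟩ := exists_height (d := d) ∅ (by simp)
  obtain ⟨hpos, -, -⟩ := core (ℓ := ℓ) H
  have hp : ∀ i, 0 < gam Φ (Pi.single i 1) := fun i => hpos _ (hℓ1 i)
  refine ⟨fun i => -Real.log (gam Φ (Pi.single i 1)), ?_⟩
  have hchi : ∀ x : Fin d → ℤ,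
      Real.exp (-∑ i, -Real.log (gam Φ (Pi.single i 1)) * x i) = chi Φ x := by
    intro x
    rw [← Finset.sum_neg_distrib, Real.exp_sum, chi]
    refine Finset.prod_congr rfl fun i _ => ?_
    rw [neg_mul, neg_neg, mul_comm, ← Real.log_zpow, Real.exp_log (zpow_pos (hp i) _)]
  funext μ
  apply FinProb.ext'
  intro x
  rw [boltzmann_mass]
  simp only [hchi]
  obtain ⟨C, hC⟩ := phi_eq H μ
  have h1 : C * ∑ᶠ y, μ.mass y * chi Φ y = 1 := by
    rw [mul_finsum, ← (Φ μ).total]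
    exact finsum_congr fun y => by rw [hC y]; ring
  have h2 : (∑ᶠ y, μ.mass y * chi Φ y) ≠ 0 := right_ne_zero_of_mul (by rw [h1]; norm_num)
  rw [hC x, eq_div_iff h2]
  linear_combination (μ.mass x * chi Φ x) * h1

end Q292.BZ
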